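import Pool.Agent.K1H34.Had.Main

/-!
# Almost complete partial Hadamard matrices in every large order divisible by four
-/

set_option autoImplicit false

namespace Pool.Agent.K1H34.Reserve.AlmostComplete

/-- For every `A`, for every large `n` divisible by `4` there are at least `n - n / (log n) ^ A`
pairwise orthogonal vectors of length `n` with entries `1` and `-1`. -/
theorem result : ∀ A : ℕ, ∃ n₀ : ℕ, ∀ n : ℕ, n₀ ≤ n → 4 ∣ n →
    ∃ (r : ℕ) (H : Matrix (Fin r) (Fin n) ℤ), (n : ℝ) - n / Real.log n ^ A ≤ r ∧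
      (∀ i j, H i j = 1 ∨ H i j = -1) ∧
      H * H.transpose = (n : ℤ) • (1 : Matrix (Fin r) (Fin r) ℤ) := by
  intro A
  obtain ⟨n₀, h⟩ := Pool.Agent.K1H34.Had.main_phad A
  refine ⟨n₀, fun n hn h4 => ?_⟩
  obtain ⟨r, hr, H, h1, h2⟩ := h n hn h4
  exact ⟨r, H, hr, h1, h2⟩

end Pool.Agent.K1H34.Reserve.AlmostComplete
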