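import Mathlib
import Pool.Agent.R143.HYF.Main
import Pool.Agent.K1H34.UNI.Cor

set_option autoImplicit false

/-!
# The Havet-Yu conjecture for `F`-free graphs, `F` of chromatic number at most three

For every finite graph `F` that can be coloured with three colours the conjecture holds for all
`F`-free graphs of large maximum degree `D` and all `p ≥ 701 D / log D`. The constant does not depend
on `F`.

Proof. `F`-free graphs of maximum degree `D` can be coloured with `(1400 + o(1)) D / log D` colours
(our theorem on the conjecture of Alon, Krivelevich and Sudakov). The vertices are distributed at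
random into `2 m` types with `m` of order `log D`; each type is coloured with few colours, and the
edges between two given types get labels in an interval placed by a modified Latin square (structure
theorem `structB` of the starting modules).
-/

namespace Pool.Agent.Results.MP_b8729f_co.ThreeColourableForbidden

open Classical Pool.Agent.TH855
open scoped ENNReal

/-- `TotalLabeling G p l`: the graph `G` has a `(p,1)`-total labeling of span `l`, that is, labels
`0, …, l` for the vertices (`fV`) and the edges (`fE`) such that adjacent vertices get different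
labels, edges sharing an endpoint get different labels, and the labels of a vertex and of an
incident edge differ by at least `p`. -/
def TotalLabeling {V : Type} (G : SimpleGraph V) (p l : ℕ) : Prop :=
  ∃ (fV : V → ℕ) (fE : Sym2 V → ℕ),
    (∀ v, fV v ≤ l) ∧ (∀ e ∈ G.edgeSet, fE e ≤ l) ∧
    (∀ u v, G.Adj u v → fV u ≠ fV v) ∧
    (∀ u v w, G.Adj u v → G.Adj u w → v ≠ w → fE s(u, v) ≠ fE s(u, w)) ∧
    (∀ u v, G.Adj u v → (p : ℤ) ≤ |(fV u : ℤ) - (fE s(u, v) : ℤ)|)

/-- For every finite `3`-colourable graph `F` there is `D₀` such that for all `D ≥ D₀` and all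
`p ≥ 701 D / log D`, every finite `F`-free graph with all degrees at most `D` has a
`(p,1)`-total labeling of span `D + 2 p - 1`. -/
theorem result {W : Type} [Fintype W] (F : SimpleGraph W) (hF : F.Colorable 3) :
    ∃ D₀ : ℕ, ∀ (V : Type) [Fintype V] (G : SimpleGraph V) (D p : ℕ), D₀ ≤ D →
      (∀ v, (G.neighborSet v).ncard ≤ D) → F.Free G → 701 * (D / Real.log D) ≤ p →
      TotalLabeling G p (D + 2 * p - 1) := by
  have h0 : c F ≤ ENNReal.ofReal 1400 := by
    refine (Pool.Agent.K1H34.UNI.c_three F hF).trans (le_of_eq ?_)
    norm_num
  obtain ⟨D₀, h⟩ := Pool.Agent.R143.HYF.ff_main F 1400 (by norm_num)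
    ((upTo_of_c_le F 1400 (by norm_num) h0).gb (by norm_num)) 1 one_pos
  refine ⟨D₀, ?_⟩
  intro V _ G D p h1 h2 h3 h4
  refine h V G D p h1 ?_ h3 ?_
  · intro v
    have := h2 v
    rwa [Set.ncard_eq_toFinset_card', ← SimpleGraph.neighborFinset_def,
      SimpleGraph.card_neighborFinset_eq_degree] at this
  · norm_num
    exact h4

end Pool.Agent.Results.MP_b8729f_co.ThreeColourableForbidden
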